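import Mathlib
import Pool.Agent.Run7.h157.FS.Hilb

set_option autoImplicit false

namespace Pool.Agent.Results.MP_dc63d3_gt.LinearGrowth

/-- For every nontrivial real Hilbert space `H`, every even `n` and every `C ≥ 0` with
`2 * C + 4 ≤ n`, no retraction of `H(n)` onto `H(n-1)` is `C`-Lipschitz for the Hausdorff
distance. -/
theorem result (H : Type*) [NormedAddCommGroup H] [InnerProductSpace ℝ H] [Nontrivial H]
    (n : ℕ) (hn : Even n) (C : ℝ) (hC : 0 ≤ C) (hCn : 2 * C + 4 ≤ n) :
    ¬ ∃ r : Finset H → Finset H,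
      (∀ s : Finset H, s.Nonempty → s.card ≤ n → (r s).Nonempty ∧ (r s).card ≤ n - 1) ∧
      (∀ s : Finset H, s.Nonempty → s.card ≤ n - 1 → r s = s) ∧
      (∀ s t : Finset H, s.Nonempty → s.card ≤ n → t.Nonempty → t.card ≤ n →
        Metric.hausdorffDist (r s : Set H) (r t : Set H) ≤
          C * Metric.hausdorffDist (s : Set H) (t : Set H)) :=
  Run7.h157.FS.hilbert H n hn C hC hCn

end Pool.Agent.Results.MP_dc63d3_gt.LinearGrowth
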